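import Pool.Agent.Helper834.Conseq

/-!
A universal upper bound for `c₁²` in terms of `c₂` and of the numbers of nodes of the branch curve,
for all symplectic simple coverings `X` of `ℂℙ²` and of the Hirzebruch surfaces, of any degree `N`,
with branch curves of any degree `d` and with nodes of both signs:
`3 c₁² + 12 N ≤ 13 c₂ + 54 ⌊d / 6⌋ + 44 + 5 ν₊ + 13 ν₋` over `ℂℙ²` and
`3 c₁² + 28 N ≤ 13 c₂ + (66 - 12 k) ⌊d / 6⌋ + 44 + 5 ν₊ + 13 ν₋` over `F_k`.
In particular `c₁² ≤ (13 / 3) c₂` for all triple coverings of `F_k`, `k ≥ 6`.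
-/

namespace Pool.Agent.Results.MP_872606_gt.AllCoverings

open Pool.Agent.Helper834

/-- `c₁²` of a covering of degree `N` of the projective plane. -/
def c1sqP {N d : ℕ} (X : Covering N d 1) : ℚ := 9 * N - 9 / 2 * d + (X.genus - 1)

/-- `c₂` of a covering of degree `N` of the projective plane. -/
def c2P {N d : ℕ} (X : Covering N d 1) : ℚ := 3 * N + 2 * (X.genus - 1) - X.κ

/-- `c₁²` of a covering of degree `N` of the Hirzebruch surface `F_k`. -/
def c1sqF {N d k : ℕ} (X : Covering N d k) : ℚ :=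
  8 * N - 3 / 2 * d * (k + 2) + (X.genus - 1)

/-- `c₂` of a covering of degree `N` of the Hirzebruch surface `F_k`. -/
def c2F {N d k : ℕ} (X : Covering N d k) : ℚ := 4 * N + 2 * (X.genus - 1) - X.κ

theorem arith {d k κ a b : ℕ} (hk : 1 ≤ k) (h2 : 2 ≤ d) (he : Even d)
    (h : 4 * (κ : ℤ) + 2 * a ≤
      k * d * (d - 1) + 2 * k * ((d / 6 : ℕ) : ℤ) * (((d / 6 : ℕ) : ℤ) + 1) -
        2 * ((d / 6 : ℕ) : ℤ) +
        2 * ((d : ℤ) - 1 - 2 * ((d / 6 : ℕ) : ℤ)) * ((k * d / 6 : ℕ) : ℤ) + 4 * b) :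
    72 * (κ : ℤ) + 36 * a ≤ 88 + 23 * (k * d * (d - 1)) - 28 * d + 9 * (d * k) +
      2 * ((66 - 12 * k) * ((d / 6 : ℕ) : ℤ)) + 72 * b := by
  have hf : 6 * ((k * d / 6 : ℕ) : ℤ) ≤ k * d := by
    have : 6 * (k * d / 6) ≤ k * d := Nat.mul_div_le _ _
    exact_mod_cast this
  have hpos : (0 : ℤ) ≤ (d : ℤ) - 1 - 2 * ((d / 6 : ℕ) : ℤ) := by omega
  have hm := mul_le_mul_of_nonneg_left hf hpos
  have hcase : d % 6 = 0 ∨ d % 6 = 2 ∨ d % 6 = 4 := by
    obtain ⟨m, hm⟩ := he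
    omega
  have hk' : (1 : ℤ) ≤ k := by exact_mod_cast hk
  generalize hq : d / 6 = q at *
  rcases hcase with hr | hr | hr
  · have hd : (d : ℤ) = 6 * q := by omega
    rw [hd] at h hm ⊢
    linarith
  · have hd : (d : ℤ) = 6 * q + 2 := by omega
    rw [hd] at h hm ⊢
    linarith
  · have hd : (d : ℤ) = 6 * q + 4 := by omega
    rw [hd] at h hm ⊢
    linarith

theorem hirzebruch {N d k : ℕ} (hN : 2 ≤ N) (hk : 1 ≤ k) (X : Covering N d k) :
    3 * c1sqF X + 28 * N ≤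
      13 * c2F X + (66 - 12 * k) * (d / 6 : ℕ) + 44 + 5 * X.nodesPos + 13 * X.nodesNeg := by
  have h := X.ineq hN hk
  have h2 := X.two_le hN
  have goal := arith hk h2 X.even_d h
  simp only [c1sqF, c2F, Covering.genus, Covering.ν]
  clear h
  generalize (d / 6 : ℕ) = q at goal ⊢
  have goal' := (Int.cast_le (R := ℚ)).2 goal
  push_cast at goal' ⊢
  linarith

/-- Let `X` be a symplectic simple branched covering of degree `N ≥ 2` of the projective plane, with
branch curve of degree `d`, or of the Hirzebruch surface `F_k`, `k ≥ 1`, with branch curve disjoint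
from the exceptional section and of degree `d` over the base. Let `ν₊` and `ν₋` be the numbers of
positive and of negative nodes of the branch curve. Then
`3 c₁² + 12 N ≤ 13 c₂ + 54 ⌊d / 6⌋ + 44 + 5 ν₊ + 13 ν₋` over the projective plane and
`3 c₁² + 28 N ≤ 13 c₂ + (66 - 12 k) ⌊d / 6⌋ + 44 + 5 ν₊ + 13 ν₋` over `F_k`. -/
theorem result :
    (∀ (N d : ℕ) (X : Covering N d 1), 2 ≤ N →
      3 * c1sqP X + 12 * N ≤
        13 * c2P X + 54 * (d / 6 : ℕ) + 44 + 5 * X.nodesPos + 13 * X.nodesNeg) ∧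
    (∀ (N d k : ℕ) (X : Covering N d k), 2 ≤ N → 1 ≤ k →
      3 * c1sqF X + 28 * N ≤
        13 * c2F X + (66 - 12 * k) * (d / 6 : ℕ) + 44 + 5 * X.nodesPos + 13 * X.nodesNeg) := by
  refine ⟨fun N d X hN => ?_, fun N d k X hN hk => hirzebruch hN hk X⟩
  have h := hirzebruch hN le_rfl X
  have h1 : c1sqF X = c1sqP X - N := by
    simp only [c1sqF, c1sqP]
    push_cast
    ring
  have h2 : c2F X = c2P X + N := by
    simp only [c2F, c2P]
    ring
  rw [h1, h2] at h
  push_cast at h ⊢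
  linarith

end Pool.Agent.Results.MP_872606_gt.AllCoverings
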