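import Pool.Agent.Helper834.Conseq

/-!
The Bogomolov-Miyaoka-Yau inequality for symplectic coverings of Hirzebruch surfaces whose
branch curve has small degree over the base.
-/

namespace Pool.Agent.Results.MP_872606_gt.HirzebruchBMY

open Pool.Agent.Helper834

/-- `c₁²` of a covering of degree `N` of the Hirzebruch surface `F_k`. -/
def c1sqF {N d k : ℕ} (X : Covering N d k) : ℚ :=
  8 * N - 3 / 2 * d * (k + 2) + (X.genus - 1)

/-- `c₂` of a covering of degree `N` of the Hirzebruch surface `F_k`. -/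
def c2F {N d k : ℕ} (X : Covering N d k) : ℚ := 4 * N + 2 * (X.genus - 1) - X.κ

theorem arithF {N d k κ : ℕ} (hN : 2 ≤ N) (hk : 1 ≤ k) (hd : d ≤ 18) (h2 : 2 ≤ d) (he : Even d)
    (h3 : N = 3 ∨ N = 4 → 3 ∣ κ) (h0 : N = 2 → κ = 0)
    (h : 4 * (κ : ℤ) ≤
      k * d * (d - 1) + 2 * k * ((d / 6 : ℕ) : ℤ) * (((d / 6 : ℕ) : ℤ) + 1) -
        2 * ((d / 6 : ℕ) : ℤ) +
        2 * ((d : ℤ) - 1 - 2 * ((d / 6 : ℕ) : ℤ)) * ((k * d / 6 : ℕ) : ℤ))
    (hρ : (0 : ℤ) ≤ k * d * (d - 1) - 3 * κ)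
    (hc : (0 : ℤ) ≤ 16 * N - 3 * d * (k + 2) + (k * d * (d - 1) - 2 * d - 2 * κ)) :
    16 * N - 3 * d * (k + 2) + (k * d * (d - 1) - 2 * d - 2 * κ) ≤
      24 * (N : ℤ) + 6 * (k * d * (d - 1) - 2 * d - 2 * κ) - 6 * κ := by
  have hcases : d ∈ ({2, 4, 6, 8, 10, 12, 14, 16, 18} : Finset ℕ) := by
    obtain ⟨m, hm⟩ := he
    simp only [Finset.mem_insert, Finset.mem_singleton]
    omega
  simp only [Finset.mem_insert, Finset.mem_singleton] at hcases
  rcases hcases with rfl | rfl | rfl | rfl | rfl | rfl | rfl | rfl | rfl <;>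
    norm_num at h hc hρ ⊢ <;> omega

theorem arithG {N d k κ ν : ℕ} (hN : 2 ≤ N) (hk : 1 ≤ k) (hd : d ≤ 10) (h2 : 2 ≤ d) (he : Even d)
    (h : 4 * (κ : ℤ) + 2 * ν ≤
      k * d * (d - 1) + 2 * k * ((d / 6 : ℕ) : ℤ) * (((d / 6 : ℕ) : ℤ) + 1) -
        2 * ((d / 6 : ℕ) : ℤ) +
        2 * ((d : ℤ) - 1 - 2 * ((d / 6 : ℕ) : ℤ)) * ((k * d / 6 : ℕ) : ℤ))
    (hρ : (0 : ℤ) ≤ k * d * (d - 1) - 3 * κ - 2 * ν)
    (hc : (0 : ℤ) ≤ 16 * N - 3 * d * (k + 2) + (k * d * (d - 1) - 2 * d - 2 * κ - 2 * ν)) :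
    16 * N - 3 * d * (k + 2) + (k * d * (d - 1) - 2 * d - 2 * κ - 2 * ν) ≤
      24 * (N : ℤ) + 6 * (k * d * (d - 1) - 2 * d - 2 * κ - 2 * ν) - 6 * κ := by
  have hcases : d ∈ ({2, 4, 6, 8, 10} : Finset ℕ) := by
    obtain ⟨m, hm⟩ := he
    simp only [Finset.mem_insert, Finset.mem_singleton]
    omega
  simp only [Finset.mem_insert, Finset.mem_singleton] at hcases
  rcases hcases with rfl | rfl | rfl | rfl | rfl <;>
    norm_num at h hc hρ ⊢ <;> omega

theorem comm2 : ∀ s s' : Equiv.Perm (Fin 2), s * s' = s' * s := by decide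

/-- A covering of degree two has no cusps. -/
theorem kappa_two {d k : ℕ} (X : Covering 2 d k) : X.κ = 0 := by
  apply Covering.count_eq_zero
  intro p hp hK
  have h1 := X.compatible p hp
  rcases p with ⟨b, i, K⟩
  simp only at hK
  subst hK
  exact h1 (comm2 _ _)

theorem three_dvd {N d k : ℕ} (X : Covering N d k) (hN : N = 3 ∨ N = 4) : 3 ∣ X.κ := by
  rcases hN with rfl | rfl
  · exact X.three_dvd_three
  · exact X.three_dvd_four

theorem kappa_zero {N d k : ℕ} (X : Covering N d k) (hN : N = 2) : X.κ = 0 := by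
  subst hN
  exact kappa_two X

/-- Let `X` be a simple branched covering of degree `N` of the Hirzebruch surface `F_k`,
`k ≥ 1`, whose branch curve has degree `d` over the base and no negative nodes. If `d ≤ 10`, or
if `d ≤ 18` and the branch curve has no nodes at all, and if `c₁² ≥ 0` or `c₂ ≥ 0`, then
`c₁² ≤ 3 c₂`. -/
theorem result {N d k : ℕ} (hN : 2 ≤ N) (hk : 1 ≤ k) (X : Covering N d k)
    (hneg : X.nodesNeg = 0) (hd : d ≤ 10 ∨ (d ≤ 18 ∧ X.nodesPos = 0))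
    (hc : 0 ≤ c1sqF X ∨ 0 ≤ c2F X) : c1sqF X ≤ 3 * c2F X := by
  rcases lt_or_ge (c1sqF X) 0 with hlt | hc
  · rcases hc with hc | hc
    · linarith
    · linarith
  have h := X.ineq hN hk
  have hdeg := X.degree_eq
  have h2 := X.two_le hN
  have ht : (0 : ℤ) ≤ count .tangency X.F := Int.natCast_nonneg _
  rw [hneg] at h hdeg
  simp only [Nat.cast_zero, mul_zero, add_zero, sub_zero] at h hdeg
  have h1d : ((d - 1 : ℕ) : ℤ) = (d : ℤ) - 1 := by omega
  rw [h1d] at hdeg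
  rcases hd with hd | ⟨hd, hpos⟩
  · simp only [c1sqF, c2F, Covering.genus, Covering.ν, hneg] at hc ⊢
    have hc' : (0 : ℤ) ≤ 16 * N - 3 * d * (k + 2) +
        (k * d * (d - 1) - 2 * d - 2 * X.κ - 2 * X.nodesPos) := by
      have : (0 : ℚ) ≤ 16 * N - 3 * d * (k + 2) +
        (k * d * (d - 1) - 2 * d - 2 * X.κ - 2 * X.nodesPos) := by
        push_cast at hc
        linarith
      exact_mod_cast this
    have goal := arithG hN hk hd h2 X.even_d h (by linarith) hc'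
    have goal' := (Int.cast_le (R := ℚ)).2 goal
    push_cast at goal' ⊢
    linarith
  · rw [hpos] at h hdeg
    simp only [Nat.cast_zero, mul_zero, add_zero] at h hdeg
    simp only [c1sqF, c2F, Covering.genus, Covering.ν, hneg, hpos] at hc ⊢
    have hc' : (0 : ℤ) ≤ 16 * N - 3 * d * (k + 2) +
        (k * d * (d - 1) - 2 * d - 2 * X.κ) := by
      have : (0 : ℚ) ≤ 16 * N - 3 * d * (k + 2) +
        (k * d * (d - 1) - 2 * d - 2 * X.κ) := by
        push_cast at hc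
        linarith
      exact_mod_cast this
    have goal := arithF hN hk hd h2 X.even_d (three_dvd X) (kappa_zero X) h (by linarith) hc'
    have goal' := (Int.cast_le (R := ℚ)).2 goal
    push_cast at goal' ⊢
    linarith

end Pool.Agent.Results.MP_872606_gt.HirzebruchBMY
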