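import Pool.Agent.Helper834.Conseq

/-!
The Bogomolov-Miyaoka-Yau inequality for symplectic triple planes of small degree.
-/

namespace Pool.Agent.Results.MP_872606_gt.TriplePlanes

open Pool.Agent.Helper834

theorem arith {d κ : ℕ} (hd : d ≤ 24 ∨ d = 28 ∨ d = 34) (he : Even d) (h2 : 2 ≤ d)
    (h3 : 3 ∣ κ)
    (h : 4 * (κ : ℤ) ≤ 1 * d * (d - 1) + 2 * 1 * ((d / 6 : ℕ) : ℤ) * (((d / 6 : ℕ) : ℤ) + 1) -
        2 * ((d / 6 : ℕ) : ℤ) +
        2 * ((d : ℤ) - 1 - 2 * ((d / 6 : ℕ) : ℤ)) * ((1 * d / 6 : ℕ) : ℤ))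
    (hc : d = 12 ∨ d = 18 ∨ d = 24 →
      (0 : ℤ) ≤ (d - 1) * (d - 2) - 2 * κ - 2 - 9 * d + 54) :
    16 * (κ : ℤ) ≤ 5 * d * d - 6 * d := by
  have hcases : d ∈ ({2, 4, 6, 8, 10, 12, 14, 16, 18, 20, 22, 24, 28, 34} : Finset ℕ) := by
    obtain ⟨m, hm⟩ := he
    simp only [Finset.mem_insert, Finset.mem_singleton]
    omega
  simp only [Finset.mem_insert, Finset.mem_singleton] at hcases
  rcases hcases with rfl | rfl | rfl | rfl | rfl | rfl | rfl | rfl | rfl | rfl | rfl | rfl |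
    rfl | rfl <;> norm_num at h hc ⊢ <;> omega

/-- `c₂` of a covering of `ℂℙ²` of degree `N`. -/
def c2 {N d : ℕ} (X : Covering N d 1) : ℚ := 2 * (X.genus - 1) + 3 * N - X.κ

/-- A symplectic triple plane with branch curve of degree `d ≤ 24`, `d = 28` or `d = 34`
satisfies `c₁² ≤ 3 c₂`, provided that `c₁² ≥ 0` or `c₂ ≥ 0` if `d` is `12`, `18` or `24`. -/
theorem result {d : ℕ} (hd : d ≤ 24 ∨ d = 28 ∨ d = 34) (X : Covering 3 d 1)
    (hc : d = 12 ∨ d = 18 ∨ d = 24 → 0 ≤ X.c1sq ∨ 0 ≤ c2 X) :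
    X.c1sq ≤ 3 * c2 X := by
  by_cases hneg : (d = 12 ∨ d = 18 ∨ d = 24) ∧ X.c1sq < 0
  · rcases hc hneg.1 with hc | hc
    · linarith [hneg.2]
    · linarith [hneg.2]
  have hc : d = 12 ∨ d = 18 ∨ d = 24 → 0 ≤ X.c1sq := by
    intro hd'
    by_contra hlt
    exact hneg ⟨hd', lt_of_not_ge hlt⟩
  have h := X.ineq (by norm_num) le_rfl
  have hn := X.nodesPos_three
  have hm := X.nodesNeg_three
  rw [hn, hm] at h
  simp only [Nat.cast_zero, mul_zero, add_zero, Nat.cast_one] at h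
  simp only [Covering.c1sq, c2, Covering.genus, Covering.ν, hn, hm] at hc ⊢
  have hc' : d = 12 ∨ d = 18 ∨ d = 24 →
      (0 : ℤ) ≤ ((d : ℤ) - 1) * (d - 2) - 2 * X.κ - 2 - 9 * d + 54 := by
    intro hd'
    have h1 := hc hd'
    have : (0 : ℚ) ≤ ((d : ℚ) - 1) * (d - 2) - 2 * X.κ - 2 - 9 * d + 54 := by
      push_cast at h1
      linarith
    exact_mod_cast this
  have goal := arith hd X.even_d (X.two_le (by norm_num)) X.three_dvd_three h hc'
  have goal' : 16 * (X.κ : ℚ) ≤ 5 * d * d - 6 * d := by exact_mod_cast goal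
  push_cast
  linarith

end Pool.Agent.Results.MP_872606_gt.TriplePlanes
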